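import Pool.Agent.Work.MP_d2e081_al.Rip2.F

/-! Neither property (T) nor property (FA) passes up from a normal subgroup along a profinite
isomorphism. -/

set_option autoImplicit false

namespace Pool.Agent.Work.MP_d2e081_al.Parked.KazhdanNormalPair

open Pool.Agent.Work.MP_d2e081_al

/-- There is a normal embedding of finitely generated residually finite groups which induces an
isomorphism of profinite completions, whose source has properties (T) and (FA), whose target has
neither, and whose cokernel maps onto a free product of two infinite groups. -/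
theorem result :
    ∃ (G H : Type) (_ : Group G) (_ : Group H) (u : G →* H),
      Group.FG G ∧ Group.FG H ∧ Group.ResiduallyFinite G ∧ Group.ResiduallyFinite H ∧
      Function.Injective u ∧ u.range.Normal ∧
      CategoryTheory.IsIso (ProfiniteGrp.profiniteCompletion.map (GrpCat.ofHom u)) ∧
      Kazhdan G ∧ HasFA G ∧ ¬ Kazhdan H ∧ ¬ HasFA H ∧
      ∃ (Q : Type) (_ : Group Q) (f : H →* Monoid.CoprodI fun _ : Bool => Q),
        Infinite Q ∧ Function.Surjective f ∧ u.range ≤ f.ker := by
  obtain ⟨t⟩ := Gam_tri (K := Pool.Agent.Work.MP_3b70de_al.E.K8)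
  have hG := t.fg
  obtain ⟨Q, _, f₀, _, h1, h2, h3⟩ := Rip2.exists_lef (K := Pool.Agent.Work.MP_3b70de_al.E.K8)
  have := Infinite.of_injective _ (Monoid.CoprodI.of_injective
    (M := fun _ : Bool => QQ Pool.Agent.Work.MP_3b70de_al.E.K8) false)
  have := Infinite.of_surjective _ h2
  obtain ⟨α, _, π, hπ⟩ := Group.fg_iff_exists_freeGroup_hom_surjective_finite.1 ‹Group.FG Q›
  obtain ⟨I, L, _, _, l1, l2, l3⟩ := Rips.levels π hπ h1
  obtain ⟨G, H, _, _, u, f, a1, a2, a3, a4, a5, a6, a7, a8, a9, a⟩ :=
    Rips.core l1 (FreeGroup.map some) π hπ l2 l3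
  have hf : Function.Surjective (f₀.comp f) := h2.comp a2
  refine ⟨G, H, inferInstance, inferInstance, u, a4, a5, a6, a7, a1, a3 ▸ inferInstance,
    isIso_completion a (Rips.dense_of_quot a2 a3 h3), a8, a9, not_kazhdan _ hf,
    fun h => not_hasFA_db (h.of_surjective _ hf), _, inferInstance, f₀.comp f, inferInstance, hf,
    fun x hx => ?_⟩
  rw [a3] at hx
  rw [MonoidHom.mem_ker, MonoidHom.comp_apply, hx, map_one]

end Pool.Agent.Work.MP_d2e081_al.Parked.KazhdanNormalPair
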