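import Pool.Agent.Work.MP_d2e081_al.Kaz
import Pool.Agent.Work.MP_d2e081_al.Tree
import Pool.Agent.Work.MP_d2e081_al.Main
import Pool.Agent.Work.MP_d2e081_al.NotT
import Pool.Agent.Work.MP_d2e081_al.Prof

/-! Neither property (T) nor property (FA) passes up along profinite isomorphisms. -/

set_option autoImplicit false

namespace Pool.Agent.Work.MP_d2e081_al.Parked.KazhdanNotUpWeak

open Pool.Agent.Work.MP_d2e081_al

/-- There is an embedding of finitely generated residually finite groups which induces an
isomorphism of profinite completions, whose source has properties (T) and (FA), and whose target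
maps onto a free product of two infinite groups and has neither (T) nor (FA). -/
theorem result :
    ∃ (G H : Type) (_ : Group G) (_ : Group H) (u : G →* H),
      Group.FG G ∧ Group.FG H ∧ Group.ResiduallyFinite G ∧ Group.ResiduallyFinite H ∧
      Function.Injective u ∧
      CategoryTheory.IsIso (ProfiniteGrp.profiniteCompletion.map (GrpCat.ofHom u)) ∧
      Kazhdan G ∧ HasFA G ∧ ¬ Kazhdan H ∧ ¬ HasFA H ∧
      ∃ (Q : Type) (_ : Group Q) (f : H →* Monoid.CoprodI fun _ : Bool => Q),
        Infinite Q ∧ Function.Surjective f := by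
  obtain ⟨t⟩ := Gam_tri (K := Pool.Agent.Work.MP_3b70de_al.E.K8)
  have hG := t.fg
  obtain ⟨ι, h1, h2⟩ := exists_general (K := Pool.Agent.Work.MP_3b70de_al.E.K8)
  obtain ⟨f, hf⟩ := exists_onto h2
  have rf : ∀ H : Subgroup (GG Pool.Agent.Work.MP_3b70de_al.E.K8), Group.ResiduallyFinite H :=
    fun H => Group.residuallyFinite_iff_exists_finiteIndex.2 fun g hg =>
      let ⟨N, _, h, h'⟩ := rf_sub H g hg
      ⟨N, ⟨h⟩, h'⟩
  have := fg_db (G := Gam Pool.Agent.Work.MP_3b70de_al.E.K8)
  exact ⟨_, (Ph ι).range, inferInstance, inferInstance, emb ι false, hG, inferInstance, rf _, rf _,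
    emb_inj ι false, isIso_completion (emb_cong ι) (emb_dense h1), t.kazhdan, t.hasFA,
    not_kazhdan f hf, fun h => not_hasFA_db (h.of_surjective f hf), _, inferInstance, f,
    inferInstance, hf⟩

end Pool.Agent.Work.MP_d2e081_al.Parked.KazhdanNotUpWeak
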