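import Pool.Agent.Work.MP_d2e081_al.Rip2.E

/-! Residually finite extensions with Kazhdan kernel and prescribed quotient. -/

set_option autoImplicit false

namespace Pool.Agent.Work.MP_d2e081_al.Parked.KazhdanRips

open Pool.Agent.Work.MP_d2e081_al

/-- A quotient of a finitely generated LEF group by a finitely generated perfect normal subgroup is
also the quotient of a residually finite group by a normal subgroup with property (T), and
injectivity or bijectivity on profinite completions passes to the new kernel. -/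
theorem result (Γ Q : Type) [Group Γ] [Group.FG Γ] (hΓ : LEF Γ) [Group Q] (π : Γ →* Q)
    (hπ : Function.Surjective π) [Group.FG π.ker] (hk : ⁅π.ker, π.ker⁆ = π.ker) :
    ∃ (G H : Type) (_ : Group G) (_ : Group H) (u : G →* H) (f : H →* Q),
      Function.Injective u ∧ Function.Surjective f ∧ u.range = f.ker ∧
      Group.FG G ∧ Group.FG H ∧ Group.ResiduallyFinite G ∧ Group.ResiduallyFinite H ∧
      Kazhdan G ∧ HasFA G ∧
      (Function.Injective
          (ProfiniteGrp.profiniteCompletion.map (GrpCat.ofHom π.ker.subtype)).hom →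
        Function.Injective (ProfiniteGrp.profiniteCompletion.map (GrpCat.ofHom u)).hom) ∧
      (CategoryTheory.IsIso (ProfiniteGrp.profiniteCompletion.map (GrpCat.ofHom π.ker.subtype)) →
        CategoryTheory.IsIso (ProfiniteGrp.profiniteCompletion.map (GrpCat.ofHom u))) := by
  have key : ∃ (G H : Type) (_ : Group G) (_ : Group H) (u : G →* H) (f : H →* Q),
      Function.Injective u ∧ Function.Surjective f ∧ u.range = f.ker ∧
      Group.FG G ∧ Group.FG H ∧ Group.ResiduallyFinite G ∧ Group.ResiduallyFinite H ∧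
      Kazhdan G ∧ HasFA G ∧ ((∀ N : Subgroup π.ker, N.Normal → N.FiniteIndex →
        ∃ M : Subgroup Γ, M.FiniteIndex ∧ M.comap π.ker.subtype ≤ N) →
        ∀ N : Subgroup G, N.Normal → N.index ≠ 0 →
          ∃ M : Subgroup H, M.Normal ∧ M.index ≠ 0 ∧ M.comap u ≤ N) := by
    cases finite_or_infinite Γ
    · have := Finite.of_surjective π hπ
      refine ⟨PUnit, Q, inferInstance, inferInstance, 1, MonoidHom.id Q,
        fun _ _ _ => Subsingleton.elim _ _, Function.surjective_id, by simp, inferInstance,
        inferInstance, inferInstance, inferInstance, ⟨∅, 1, one_pos, fun H _ _ _ π ⟨v, hv, _⟩ =>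
          ⟨v, by rintro rfl; simp at hv, fun g => by rw [Subsingleton.elim g 1, map_one]; rfl⟩⟩,
        fun V _ T hT _ _ => hT.connected.nonempty.elim fun v =>
          ⟨v, fun g => by rw [Subsingleton.elim g 1, one_smul]⟩,
        fun _ N _ _ => ⟨⊤, inferInstance, by simp, fun g _ => ?_⟩⟩
      rw [Subsingleton.elim g 1]
      exact N.one_mem
    · obtain ⟨α, _, p, hp⟩ := Group.fg_iff_exists_freeGroup_hom_surjective_finite.1 ‹Group.FG Γ›
      obtain ⟨I, L, _, _, h1, h2, h3⟩ := Rip2.levels p hp hΓ
      exact Rip2.core h1 (FreeGroup.map some) p hp π hπ hk h2 h3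
  obtain ⟨G, H, _, _, u, f, h1, h2, h3, h4, h5, h6, h7, h8, h9, h⟩ := key
  refine ⟨G, H, inferInstance, inferInstance, u, f, h1, h2, h3, h4, h5, h6, h7, h8, h9,
    fun e => Rips.inj_completion (h fun N _ _ => Rip2.cong_of_inj e N), fun e => ?_⟩
  have b := CategoryTheory.ConcreteCategory.bijective_of_isIso
    (ProfiniteGrp.profiniteCompletion.map (GrpCat.ofHom π.ker.subtype))
  refine isIso_completion (h fun N _ _ => Rip2.cong_of_inj b.1 N)
    (Rips.dense_of_quot h2 h3 fun M _ => top_unique fun x _ => ?_)
  obtain ⟨x, rfl⟩ := hπ x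
  have : (M.normalCore.comap π).FiniteIndex :=
    (FiniteIndexNormalSubgroup.comap π (.ofSubgroup M.normalCore)).isFiniteIndex'
  obtain ⟨g, hg⟩ := Rip2.dense_of_surj b.2 (M.normalCore.comap π) x
  have e : π (π.ker.subtype g) = 1 := g.2
  rw [Subgroup.mem_comap, map_mul, map_inv, e, inv_one, one_mul] at hg
  exact M.normalCore_le hg

end Pool.Agent.Work.MP_d2e081_al.Parked.KazhdanRips
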